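import Pool.Agent.H24.HypB

open MeasureTheory Finset
open scoped ComplexConjugate

namespace Pool.Agent.Results.MP_31cf03_an.Order

/-- The hyperbolic cross. -/
def Gam (d : ℕ) (N : ℝ) : Set (Fin d → ℤ) := {k | ((∏ j, max |k j| 1 : ℤ) : ℝ) ≤ N}

/-- The trigonometric polynomial with coefficients `c` on the torus `(ℝ/ℤ)^d`. -/
noncomputable def tp {d : ℕ} (c : (Fin d → ℤ) →₀ ℂ) (x : Fin d → AddCircle (1 : ℝ)) : ℂ :=
  ∑ k ∈ c.support, c k * ∏ j, fourier (k j) (x j)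

/-- `L¹` norm for the normalised Haar measure. -/
noncomputable def L1 {d : ℕ} (f : (Fin d → AddCircle (1 : ℝ)) → ℂ) : ℝ :=
  ∫ x, ‖f x‖ ∂(Measure.pi fun _ : Fin d => (AddCircle.haarAddCircle : Measure (AddCircle (1 : ℝ))))

/-- The set of ratios whose supremum is `A_d(N)`. -/
def ratios (d : ℕ) (N : ℝ) : Set ℝ :=
  {r | ∃ c : (Fin d → ℤ) →₀ ℂ, (↑c.support : Set (Fin d → ℤ)) ⊆ Gam d N ∧ c ≠ 0 ∧
    r = (∑ k ∈ c.support, ‖c k‖) / L1 (tp c)}

open Pool.Agent.H24.HypA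

lemma tp_eq {d : ℕ} (c : (Fin d → ℤ) →₀ ℂ) : tp c = tr c.support c := rfl

lemma L1_eq {d : ℕ} (f : (Fin d → AddCircle (1 : ℝ)) → ℂ) : L1 f = ∫ x, ‖f x‖ ∂mu d := rfl

lemma upper (d : ℕ) : ∃ C : ℝ, 0 < C ∧ ∀ N : ℝ, 1 ≤ N → ∀ r ∈ ratios d N, r ≤ C * N := by
  obtain ⟨θ, hθ0, h8⟩ : ∃ θ : ℝ, 0 ≤ θ ∧ θ ^ 8 = 2 :=
    ⟨_, by positivity, Real.rpow_inv_natCast_pow (x := 2) (n := 8) (by norm_num) (by norm_num)⟩
  have hθ : 1 < θ := by
    by_contra h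
    have := pow_le_one₀ (n := 8) hθ0 (not_lt.mp h)
    linarith
  have hC : 0 < (2 * (1 - θ⁻¹)⁻¹) ^ d := by
    have : θ⁻¹ < 1 := inv_lt_one_of_one_lt₀ hθ
    have : 0 < 1 - θ⁻¹ := by linarith
    positivity
  refine ⟨(2 ^ d * (4 * 4 ^ d * ((2 * (1 - θ⁻¹)⁻¹) ^ d) ^ 2)) * 2 ^ d, by positivity, ?_⟩
  rintro N hN r ⟨c, hc, -, rfl⟩
  obtain ⟨l, hl0, l8⟩ : ∃ l : ℝ, 0 < l ∧ l ^ 8 = 2 ^ d * N :=
    ⟨_, by positivity, Real.rpow_inv_natCast_pow (x := 2 ^ d * N) (n := 8) (by positivity) (by norm_num)⟩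
  have hm := main θ l hl0 hθ h8 c.support ?_ c (fun k hk => Finsupp.mem_support_iff.mp hk)
  · rw [tp_eq, L1_eq]
    refine div_le_of_le_mul₀ (integral_nonneg fun _ => norm_nonneg _) (by positivity) ?_
    rw [l8] at hm
    exact hm.trans (le_of_eq (by ring))
  · intro s hs
    obtain ⟨k, hk, rfl⟩ := Finset.mem_image.mp hs
    refine (pow_le_pow_iff_left₀ (pp_pos (by linarith) _).le hl0.le (n := 8) (by norm_num)).mp ?_
    rw [← pp8 h8, l8]
    have h1 : ((∏ j, max |k j| 1 : ℤ) : ℝ) ≤ N := hc hk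
    have h2 : (∏ i, (2:ℤ) ^ lev k i) ≤ ∏ i, 2 * max |k i| 1 :=
      Finset.prod_le_prod (fun _ _ => by positivity) fun i _ => lev_le k i
    rw [Finset.prod_mul_distrib] at h2
    simp only [Finset.prod_const, Finset.card_univ, Fintype.card_fin] at h2
    have h3 : ((∏ i, (2:ℤ) ^ lev k i : ℤ) : ℝ) ≤ ((2 ^ d * ∏ i, max |k i| 1 : ℤ) : ℝ) :=
      Int.cast_le.mpr h2
    rw [Int.cast_mul] at h3
    push_cast at h3 h1
    exact h3.trans (mul_le_mul_of_nonneg_left h1 (by positivity))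

lemma tp_sum {d : ℕ} {ι : Type*} (S : Finset ι) (k : ι → Fin d → ℤ) (x : UnitAddTorus (Fin d)) :
    tp (∑ i ∈ S, Finsupp.single (k i) (1:ℂ)) x = ∑ i ∈ S, e (k i) x := by
  have : ∀ c : (Fin d → ℤ) →₀ ℂ, tp c x = Finsupp.linearCombination ℂ (fun k => e k x) c :=
    fun c => rfl
  rw [this, map_sum]
  simp

lemma lower (d : ℕ) (hd : 1 ≤ d) (N : ℝ) (hN : 1 ≤ N) : ∃ r ∈ ratios d N, N ≤ r := by
  obtain ⟨m, hm⟩ : ∃ m : ℕ, m = ⌊N⌋₊ + 1 := ⟨_, rfl⟩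
  have hm1 : N < m := by rw [hm]; push_cast; exact Nat.lt_floor_add_one N
  have hm2 : (m : ℝ) - 1 ≤ N := by
    rw [hm]; push_cast; have := Nat.floor_le (by linarith : 0 ≤ N); linarith
  let i0 : Fin d := ⟨0, hd⟩
  let u : ℕ → Fin d → ℤ := fun j => Pi.single i0 (j : ℤ)
  have hu : Function.Injective u := by
    intro a b h
    have := congrFun h i0
    simpa [u] using this
  let c : (Fin d → ℤ) →₀ ℂ := ∑ z ∈ range m ×ˢ range m, Finsupp.single (u z.1 - u z.2) (1:ℂ)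
  let P := (range m).image u
  have ht : ∀ x, tp c x = ((‖tr P (fun _ => 1) x‖ ^ 2 : ℝ) : ℂ) := by
    intro x
    rw [tp_sum, Finset.sum_product, Complex.ofReal_pow, ← Complex.mul_conj']
    unfold tr
    rw [Finset.sum_image (fun a _ b _ h => hu h), map_sum, Finset.sum_mul_sum]
    simp [e_sub]
  have hL : L1 (tp c) = m := by
    have h1 := pair_tr P (fun _ => 1) (cont_int (tr_cont P (fun _ => 1)))
    rw [Finset.sum_congr rfl (g := fun _ => (1:ℂ)) (fun k hk => by rw [co_tr, if_pos hk]; simp)] at h1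
    simp only [Complex.mul_conj', ← Complex.ofReal_pow, integral_complex_ofReal] at h1
    rw [Finset.sum_const, Finset.card_image_of_injective _ hu, Finset.card_range] at h1
    rw [L1_eq]
    simp only [ht, Complex.norm_real, Real.norm_eq_abs, abs_pow, abs_norm]
    have : ((∫ x, ‖tr P (fun _ => 1) x‖ ^ 2 ∂mu d : ℝ) : ℂ) = ((m : ℝ) : ℂ) := by
      rw [h1]; simp
    exact_mod_cast this
  have e0 : ∀ k : Fin d → ℤ, e k 0 = 1 := by
    intro k; simp [e, UnitAddTorus.mFourier]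
  have h0 : tp c 0 = ((m : ℝ) ^ 2 : ℝ) := by
    rw [tp_sum]
    simp [e0, sq]
  have hA : (m : ℝ) ^ 2 ≤ ∑ k ∈ c.support, ‖c k‖ := by
    have : ‖tp c 0‖ ≤ ∑ k ∈ c.support, ‖c k‖ := by
      rw [tp_eq]
      exact (norm_sum_le _ _).trans (le_of_eq (by simp [e0]))
    rw [h0, Complex.norm_real, Real.norm_of_nonneg (sq_nonneg _)] at this
    exact this
  have m0 : (0:ℝ) < m := by linarith
  refine ⟨_, ⟨c, ?_, ?_, rfl⟩, ?_⟩
  · intro k hk
    obtain ⟨z, hz, hk⟩ := Finset.mem_biUnion.mp (Finsupp.support_finsetSum (Finset.mem_coe.mp hk))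
    have hk' := Finset.mem_singleton.mp (Finsupp.support_single_subset hk)
    obtain ⟨h1, h2⟩ := Finset.mem_product.mp hz
    rw [Finset.mem_range] at h1 h2
    show ((∏ j, max |k j| 1 : ℤ) : ℝ) ≤ N
    rw [Finset.prod_eq_single i0 (fun j _ hj => by simp [hk', u, hj]) (by simp)]
    have : k i0 = (z.1 : ℤ) - z.2 := by simp [hk', u]
    rw [this]
    have h3 : |(z.1 : ℤ) - z.2| ≤ m - 1 := by rw [abs_le]; omega
    have h4 : ((|(z.1 : ℤ) - z.2| : ℤ) : ℝ) ≤ N := by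
      refine le_trans ?_ hm2
      exact_mod_cast h3
    rw [Int.cast_max]
    exact max_le h4 (by simpa using hN)
  · intro h
    rw [h] at hA
    simp only [Finsupp.support_zero, Finset.sum_empty] at hA
    nlinarith
  · rw [hL, le_div_iff₀ m0]
    nlinarith

theorem result (d : ℕ) (hd : 1 ≤ d) : ∃ C : ℝ, 0 < C ∧ ∀ N : ℝ, 1 ≤ N →
    BddAbove (ratios d N) ∧ N ≤ sSup (ratios d N) ∧ sSup (ratios d N) ≤ C * N := by
  obtain ⟨C, hC, h⟩ := upper d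
  refine ⟨C, hC, fun N hN => ?_⟩
  obtain ⟨r, hr, hNr⟩ := lower d hd N hN
  have hb : BddAbove (ratios d N) := ⟨C * N, h N hN⟩
  exact ⟨hb, hNr.trans (le_csSup hb hr), csSup_le ⟨r, hr⟩ (h N hN)⟩

end Pool.Agent.Results.MP_31cf03_an.Order
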